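import Mathlib

set_option autoImplicit false

/-!
# The solutions of `p ^ 2 - 2 r ^ 2 = -1` (helper233)
-/

open Filter
open scoped Topology

namespace Pool.Agent.N233.PE

/-- the solutions `(p_k, r_k)` -/
def pr : ℕ → ℕ × ℕ
  | 0 => (1, 1)
  | k + 1 => (3 * (pr k).1 + 4 * (pr k).2, 2 * (pr k).1 + 3 * (pr k).2)

/-- `p_k` -/
def P (k : ℕ) : ℕ := (pr k).1
/-- `r_k` -/
def R (k : ℕ) : ℕ := (pr k).2

lemma P_zero : P 0 = 1 := rfl
lemma R_zero : R 0 = 1 := rfl
lemma P_succ (k : ℕ) : P (k + 1) = 3 * P k + 4 * R k := rfl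
lemma R_succ (k : ℕ) : R (k + 1) = 2 * P k + 3 * R k := rfl

lemma P_pos (k : ℕ) : 0 < P k := by
  induction k with
  | zero => exact one_pos
  | succ k ih => rw [P_succ]; omega

lemma R_pos (k : ℕ) : 0 < R k := by
  induction k with
  | zero => exact one_pos
  | succ k ih => rw [R_succ]; omega

lemma eqn (k : ℕ) : P k ^ 2 + 1 = 2 * R k ^ 2 := by
  induction k with
  | zero => rfl
  | succ k ih => rw [P_succ, R_succ]; nlinarith [ih]

lemma P_lt (k : ℕ) : P k < P (k + 1) := by
  rw [P_succ]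
  have := P_pos k
  have := R_pos k
  omega

lemma R_lt (k : ℕ) : R k < R (k + 1) := by
  rw [R_succ]
  have := P_pos k
  have := R_pos k
  omega

/-- every solution in naturals is one of the `(p_k, r_k)` -/
lemma sol : ∀ r p : ℕ, p ^ 2 + 1 = 2 * r ^ 2 → ∃ k, p = P k ∧ r = R k := by
  intro r
  induction r using Nat.strong_induction_on with
  | _ r ih =>
    intro p h
    rcases Nat.lt_or_ge r 2 with hr | hr
    · interval_cases r
      · omega
      · have : p ^ 2 = 1 := by omega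
        have : p = 1 := by nlinarith
        exact ⟨0, this, rfl⟩
    · -- descend
      have h1 : 4 * r ≤ 3 * p := by
        by_contra hc
        push Not at hc
        have : (3 * p + 1) ^ 2 ≤ (4 * r) ^ 2 := Nat.pow_le_pow_left hc 2
        nlinarith
      have h2 : 2 * p ≤ 3 * r := by
        by_contra hc
        push Not at hc
        have : (3 * r + 1) ^ 2 ≤ (2 * p) ^ 2 := Nat.pow_le_pow_left hc 2
        nlinarith
      obtain ⟨a, ha⟩ := Nat.exists_eq_add_of_le h1
      obtain ⟨b, hb⟩ := Nat.exists_eq_add_of_le h2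
      have hb1 : b < r := by
        by_contra hc
        push Not at hc
        have h3 : p ≤ r := by omega
        have := Nat.pow_le_pow_left h3 2
        nlinarith
      have hab : a ^ 2 + 1 = 2 * b ^ 2 := by
        have ha' : (a : ℤ) = 3 * p - 4 * r := by
          have : (3 * p : ℤ) = 4 * r + a := by exact_mod_cast ha
          linarith
        have hb' : (b : ℤ) = 3 * r - 2 * p := by
          have : (3 * r : ℤ) = 2 * p + b := by exact_mod_cast hb
          linarith
        have h' : (p : ℤ) ^ 2 + 1 = 2 * r ^ 2 := by exact_mod_cast h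
        have : (a : ℤ) ^ 2 + 1 = 2 * b ^ 2 := by
          rw [ha', hb']
          nlinarith
        exact_mod_cast this
      obtain ⟨k, hk1, hk2⟩ := ih b hb1 a hab
      refine ⟨k + 1, ?_, ?_⟩
      · rw [P_succ, ← hk1, ← hk2]
        omega
      · rw [R_succ, ← hk1, ← hk2]
        omega

/-- the explicit form -/
lemma P_add (k : ℕ) : (P k : ℝ) + R k * √2 = (1 + √2) ^ (2 * k + 1) := by
  have h2 : √2 * √2 = (2 : ℝ) := Real.mul_self_sqrt (by norm_num)
  induction k with
  | zero => simp [P_zero, R_zero]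
  | succ k ih =>
    have e : (1 + √2) ^ (2 * (k + 1) + 1) = (1 + √2) ^ (2 * k + 1) * (1 + √2) ^ 2 := by ring
    have e2 : (1 + √2) ^ 2 = 3 + 2 * √2 := by nlinarith
    rw [e, ← ih, e2, P_succ, R_succ]
    push_cast
    linear_combination (-2 * (R k : ℝ)) * h2

lemma P_le (k : ℕ) : (P k : ℝ) ≤ R k * √2 := by
  have h1 : ((P k : ℝ)) ^ 2 + 1 = 2 * (R k : ℝ) ^ 2 := by exact_mod_cast eqn k
  have h2 : (√2) ^ 2 = (2 : ℝ) := Real.sq_sqrt (by norm_num)
  rw [← sq_le_sq₀ (by positivity) (by positivity), mul_pow, h2]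
  linarith

lemma P_ge (k : ℕ) : (R k : ℝ) * √2 ≤ P k + 1 := by
  have h1 : ((P k : ℝ)) ^ 2 + 1 = 2 * (R k : ℝ) ^ 2 := by exact_mod_cast eqn k
  have h2 : (√2) ^ 2 = (2 : ℝ) := Real.sq_sqrt (by norm_num)
  have h3 : (0 : ℝ) ≤ P k := Nat.cast_nonneg _
  rw [← sq_le_sq₀ (by positivity) (by positivity), mul_pow, h2]
  nlinarith

lemma one_lt_two_sqrt : (1 : ℝ) < √2 ∧ √2 < 3 / 2 := by
  constructor
  · rw [Real.lt_sqrt (by norm_num)]
    norm_num
  · rw [Real.sqrt_lt' (by norm_num)]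
    norm_num

lemma P_bd (k : ℕ) : (1 + √2) ^ (2 * k + 1) / 3 ≤ P k ∧ (P k : ℝ) ≤ (1 + √2) ^ (2 * k + 1) := by
  rw [← P_add]
  have h1 := P_le k
  have h2 := P_ge k
  have h3 : (1 : ℝ) ≤ P k := by exact_mod_cast P_pos k
  constructor <;> nlinarith

lemma R_bd (k : ℕ) : (1 + √2) ^ (2 * k + 1) / 3 ≤ R k ∧ (R k : ℝ) ≤ (1 + √2) ^ (2 * k + 1) := by
  rw [← P_add]
  have h1 := P_le k
  have h2 := P_ge k
  have h3 : (1 : ℝ) ≤ R k := by exact_mod_cast R_pos k
  obtain ⟨h4, h5⟩ := one_lt_two_sqrt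
  have h6 : (0 : ℝ) ≤ P k := Nat.cast_nonneg _
  constructor <;> nlinarith

/-- growth of the logarithms -/
lemma growth (F : ℕ → ℕ) (h : ∀ k, (1 + √2) ^ (2 * k + 1) / 3 ≤ F k ∧ (F k : ℝ) ≤ (1 + √2) ^ (2 * k + 1)) :
    Tendsto (fun k : ℕ => Real.log (F k) / k) atTop (𝓝 (2 * Real.log (1 + √2))) := by
  obtain ⟨h4, h5⟩ := one_lt_two_sqrt
  set l := Real.log (1 + √2) with hl
  have hl0 : 0 < l := Real.log_pos (by linarith)
  have e : ∀ k : ℕ, Real.log ((1 + √2) ^ (2 * k + 1)) = (2 * k + 1) * l := by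
    intro k
    rw [Real.log_pow]
    push_cast
    ring
  have t1 : Tendsto (fun k : ℕ => 2 * l + (l - Real.log 3) / k) atTop (𝓝 (2 * l)) := by
    simpa using (tendsto_const_div_atTop_nhds_zero_nat (l - Real.log 3)).const_add (2 * l)
  have t2 : Tendsto (fun k : ℕ => 2 * l + l / k) atTop (𝓝 (2 * l)) := by
    simpa using (tendsto_const_div_atTop_nhds_zero_nat l).const_add (2 * l)
  refine tendsto_of_tendsto_of_tendsto_of_le_of_le' t1 t2 ?_ ?_
  · filter_upwards [eventually_gt_atTop 0] with k hk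
    have hk' : (0 : ℝ) < k := by exact_mod_cast hk
    have h6 := Real.log_le_log (by positivity) (h k).1
    rw [Real.log_div (by positivity) (by norm_num), e] at h6
    rw [le_div_iff₀ hk', add_mul, div_mul_cancel₀ _ hk'.ne']
    linarith
  · filter_upwards [eventually_gt_atTop 0] with k hk
    have hk' : (0 : ℝ) < k := by exact_mod_cast hk
    have h7 : (0 : ℝ) < F k := lt_of_lt_of_le (by positivity) (h k).1
    have h6 := Real.log_le_log h7 (h k).2
    rw [e] at h6
    rw [div_le_iff₀ hk', add_mul, div_mul_cancel₀ _ hk'.ne']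
    linarith

/-- the recursion modulo `Q`, a permutation -/
def T (Q : ℕ) : Equiv.Perm (ZMod Q × ZMod Q) where
  toFun x := (3 * x.1 + 4 * x.2, 2 * x.1 + 3 * x.2)
  invFun x := (3 * x.1 - 4 * x.2, 3 * x.2 - 2 * x.1)
  left_inv x := by
    ext <;> simp <;> ring
  right_inv x := by
    ext <;> simp <;> ring

lemma T_pow (Q k : ℕ) : ((P k : ZMod Q), (R k : ZMod Q)) = (T Q ^ k) (1, 1) := by
  induction k with
  | zero => simp [P_zero, R_zero]
  | succ k ih =>
    rw [pow_succ', Equiv.Perm.mul_apply, ← ih, P_succ, R_succ]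
    simp [T]

lemma periodic (Q : ℕ) (hQ : 0 < Q) : ∃ W, 0 < W ∧ Function.Periodic (fun k => Nat.Coprime (P k) Q) W ∧
    Function.Periodic (fun k => Nat.Coprime (R k) Q) W := by
  haveI : NeZero Q := ⟨hQ.ne'⟩
  refine ⟨orderOf (T Q), orderOf_pos _, ?_, ?_⟩
  · intro k
    have h1 := T_pow Q (k + orderOf (T Q))
    rw [pow_add, pow_orderOf_eq_one, mul_one, ← T_pow] at h1
    have h2 := congrArg Prod.fst h1
    simp only at h2
    simp only [← ZMod.isUnit_iff_coprime, h2]
  · intro k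
    have h1 := T_pow Q (k + orderOf (T Q))
    rw [pow_add, pow_orderOf_eq_one, mul_one, ← T_pow] at h1
    have h2 := congrArg Prod.snd h1
    simp only at h2
    simp only [← ZMod.isUnit_iff_coprime, h2]

end Pool.Agent.N233.PE
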