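import Mathlib
import Pool.Agent.R528.RM.BHOut
import Pool.Agent.N860.HL.Ana
import Pool.Agent.N233.PE.Pell

set_option autoImplicit false

/-!
# Chosen terms of an exponential sequence in sieved sequential models (helper233)
-/

open MeasureTheory Filter Set
open scoped Topology

namespace Pool.Agent.N233.PE

open Pool.Agent.R528.RM

lemma logN_top : Tendsto (fun n : ℕ => Real.log (n : ℝ)) atTop atTop :=
  Real.tendsto_log_atTop.comp tendsto_natCast_atTop_atTop

/-- harmonic sums -/
lemma harm : Tendsto (fun N : ℕ => (∑ i ∈ Finset.range N, 1 / ((i : ℝ) + 1)) / Real.log N) atTop (𝓝 1) := by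
  have e : ∀ N : ℕ, ((harmonic N : ℚ) : ℝ) = ∑ i ∈ Finset.range N, 1 / ((i : ℝ) + 1) := by
    intro N
    rw [harmonic]
    push_cast
    exact Finset.sum_congr rfl fun i _ => by rw [one_div]
  have h1 : Tendsto (fun N : ℕ => 1 + 1 / Real.log N) atTop (𝓝 (1 + 0)) :=
    tendsto_const_nhds.add ((tendsto_const_nhds (x := (1 : ℝ))).div_atTop logN_top)
  rw [add_zero] at h1
  refine tendsto_of_tendsto_of_tendsto_of_le_of_le' tendsto_const_nhds h1 ?_ ?_
  · filter_upwards [logN_top.eventually_gt_atTop 0, eventually_gt_atTop 0] with N hN hN0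
    rw [le_div_iff₀ hN, one_mul, ← e]
    have h2 := log_add_one_le_harmonic N
    refine le_trans ?_ h2
    apply Real.log_le_log
    · exact_mod_cast hN0
    · push_cast; linarith
  · filter_upwards [logN_top.eventually_gt_atTop 0] with N hN
    rw [div_le_iff₀ hN, ← e]
    have h2 := harmonic_le_one_add_log N
    have h3 : (1 + 1 / Real.log N) * Real.log N = 1 + Real.log N := by
      field_simp
      ring
    rw [h3]
    exact h2

/-- harmonic sums over periodic sets -/
lemma harm_periodic (p : ℕ → Prop) [DecidablePred p] (W : ℕ) (hW : 0 < W) (hp : Function.Periodic p W) :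
    Tendsto (fun N : ℕ => (∑ i ∈ Finset.range N, (if p i then (1 : ℝ) else 0) * (1 / ((i : ℝ) + 1))) / Real.log N) atTop
      (𝓝 ((Nat.count p W : ℝ) / W)) := by
  set δ : ℝ := (Nat.count p W : ℝ) / W with hδ
  have h1 : ∀ N, |∑ i ∈ Finset.range N, ((if p i then (1 : ℝ) else 0) - δ) * (1 / ((i : ℝ) + 1))| ≤ W := by
    intro N
    have h2 := Pool.Agent.N860.HL.abel_bound (fun i => (if p i then (1 : ℝ) else 0) - δ) (fun i => 1 / ((i : ℝ) + 1))
      (fun n => by
        apply one_div_le_one_div_of_le (by positivity)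
        push_cast
        linarith) (fun n => by positivity) W (fun k => by
        have h3 := Pool.Agent.N860.HL.count_bound p W hW hp k
        have h4 : ∑ i ∈ Finset.range k, ((if p i then (1 : ℝ) else 0) - δ) = Nat.count p k - δ * k := by
          rw [Finset.sum_sub_distrib, Finset.sum_boole, Finset.sum_const, Finset.card_range, nsmul_eq_mul,
            Nat.count_eq_card_filter_range]
          ring
        rw [h4, mul_comm δ]
        exact h3) N
    simpa using h2
  have h5 : Tendsto (fun N : ℕ => (∑ i ∈ Finset.range N, ((if p i then (1 : ℝ) else 0) - δ) * (1 / ((i : ℝ) + 1))) /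
      Real.log N) atTop (𝓝 0) := by
    have h6 : Tendsto (fun N : ℕ => (W : ℝ) / Real.log N) atTop (𝓝 0) := tendsto_const_nhds.div_atTop logN_top
    refine squeeze_zero_norm' ?_ h6
    filter_upwards [logN_top.eventually_gt_atTop 0] with N hN
    rw [Real.norm_eq_abs, abs_div, abs_of_pos hN]
    exact div_le_div_of_nonneg_right (h1 N) hN.le
  have h7 := h5.add (harm.const_mul δ)
  rw [zero_add, mul_one] at h7
  refine h7.congr fun N => ?_
  rw [← mul_div_assoc, ← add_div, Finset.mul_sum, ← Finset.sum_add_distrib]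
  congr 1
  refine Finset.sum_congr rfl fun i _ => ?_
  ring

/-- the expected number of chosen terms -/
lemma expected (Q : ℕ) (hQ : 0 < Q) (F : ℕ → ℕ) (L : ℝ) (hL : 0 < L)
    (hF : Tendsto (fun k : ℕ => Real.log (F k) / k) atTop (𝓝 L)) (W : ℕ) (hW : 0 < W)
    (hp : Function.Periodic (fun k => Nat.Coprime (F k) Q) W) (h0 : Nat.Coprime (F 0) Q) :
    0 < (Nat.count (fun k => Nat.Coprime (F k) Q) W : ℝ) / W ∧
    Tendsto (fun K : ℕ => (∑ k ∈ Finset.range K, rhoW Q (F k)) /
      (((Q : ℝ) / Nat.totient Q) * ((Nat.count (fun k => Nat.Coprime (F k) Q) W : ℝ) / W) / L * Real.log K))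
      atTop (𝓝 1) := by
  set δ : ℝ := (Nat.count (fun k => Nat.Coprime (F k) Q) W : ℝ) / W with hδ
  set c : ℝ := (Q : ℝ) / Nat.totient Q with hc
  have hWr : (0 : ℝ) < W := by exact_mod_cast hW
  have hcpos : 0 < c := div_pos (by exact_mod_cast hQ) (by exact_mod_cast Nat.totient_pos.2 hQ)
  have hδ0 : 0 < δ := by
    refine div_pos ?_ hWr
    have h1 : 0 < Nat.count (fun k => Nat.Coprime (F k) Q) W := by
      rw [Nat.count_eq_card_filter_range]
      exact Finset.card_pos.2 ⟨0, Finset.mem_filter.2 ⟨Finset.mem_range.2 hW, h0⟩⟩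
    exact_mod_cast h1
  refine ⟨hδ0, ?_⟩
  have hkk : Tendsto (fun k : ℕ => Real.log (F k)) atTop atTop := by
    have h1 : Tendsto (fun k : ℕ => Real.log (F k) / k * k) atTop atTop :=
      hF.pos_mul_atTop hL tendsto_natCast_atTop_atTop
    refine h1.congr' ?_
    filter_upwards [eventually_gt_atTop 0] with k hk
    have : (k : ℝ) ≠ 0 := by exact_mod_cast hk.ne'
    field_simp
  -- the terms
  set a : ℕ → ℝ := fun k => (c / L) * ((if Nat.Coprime (F k) Q then (1 : ℝ) else 0) * (1 / ((k : ℝ) + 1))) with ha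
  have hU : Tendsto (fun K : ℕ => c * δ / L * Real.log K) atTop atTop :=
    logN_top.const_mul_atTop (by positivity)
  refine sum_ratio (a := a) (b := fun k => rhoW Q (F k)) ?_ hU ?_ ?_
  · intro n
    simp only [ha]
    split_ifs <;> positivity
  · intro ε hε
    have h1 : Tendsto (fun k : ℕ => ((k : ℝ) + 1) / Real.log (F k)) atTop (𝓝 L⁻¹) := by
      have h2 := (hF.inv₀ hL.ne')
      have h3 : Tendsto (fun n : ℕ => 1 + (1 : ℝ) / n) atTop (𝓝 (1 + 0)) :=
        tendsto_const_nhds.add tendsto_one_div_atTop_nhds_zero_nat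
      rw [add_zero] at h3
      have h4 := h2.mul h3
      rw [mul_one] at h4
      refine h4.congr' ?_
      filter_upwards [eventually_gt_atTop 0] with k hk
      have : (k : ℝ) ≠ 0 := by exact_mod_cast hk.ne'
      field_simp
    have h2 : Tendsto (fun k : ℕ => L * (((k : ℝ) + 1) / Real.log (F k))) atTop (𝓝 1) := by
      have := h1.const_mul L
      rwa [mul_inv_cancel₀ hL.ne'] at this
    filter_upwards [(Metric.tendsto_nhds.1 h2) ε hε, hkk.eventually_ge_atTop c] with k g1 g2
    have hlk : 0 < Real.log (F k) := by linarith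
    simp only [ha]
    unfold rhoW
    by_cases hk : Nat.Coprime (F k) Q
    · rw [if_pos hk, if_pos hk, ← hc, min_eq_right (by rwa [div_le_one hlk])]
      rw [Real.dist_eq] at g1
      have e1 : c / Real.log (F k) - c / L * (1 * (1 / ((k : ℝ) + 1))) =
          (L * (((k : ℝ) + 1) / Real.log (F k)) - 1) * (c / L * (1 * (1 / ((k : ℝ) + 1)))) := by
        have : ((k : ℝ) + 1) ≠ 0 := by positivity
        field_simp
      have h3 : 0 < c / L * (1 * (1 / ((k : ℝ) + 1))) := by positivity
      rw [e1, abs_mul, abs_of_pos h3]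
      exact mul_le_mul_of_nonneg_right g1.le h3.le
    · rw [if_neg hk, if_neg hk]
      simp
  · have h1 := harm_periodic (fun k => Nat.Coprime (F k) Q) W hW hp
    have h2 : Tendsto (fun N : ℕ => δ⁻¹ * ((∑ i ∈ Finset.range N, (if Nat.Coprime (F i) Q then (1 : ℝ) else 0) *
        (1 / ((i : ℝ) + 1))) / Real.log N)) atTop (𝓝 (δ⁻¹ * δ)) := h1.const_mul _
    rw [inv_mul_cancel₀ hδ0.ne'] at h2
    refine h2.congr' ?_
    filter_upwards [logN_top.eventually_gt_atTop 0] with N hN
    simp only [ha]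
    rw [← Finset.mul_sum]
    field_simp

variable {Ω : Type} {m0 : MeasurableSpace Ω} {μ : Measure Ω} [IsProbabilityMeasure μ]
  {ℱ : Filtration ℕ m0} {A : ℕ → Set Ω}

/-- the number of chosen terms -/
theorem count_law (hA : ∀ n, MeasurableSet[ℱ n] (A n)) (Q : ℕ) (hQ : 0 < Q)
    (hd : ∀ᵐ ω ∂μ, ∀ ε : ℝ, 0 < ε → ∀ᶠ n : ℕ in atTop,
      |dens μ ℱ A n ω - rhoW Q (n + 1)| ≤ ε * rhoW Q (n + 1))
    (F : ℕ → ℕ) (hmono : ∀ n, F n < F (n + 1)) (L : ℝ) (hL : 0 < L)
    (hF : Tendsto (fun k : ℕ => Real.log (F k) / k) atTop (𝓝 L)) (W : ℕ) (hW : 0 < W)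
    (hp : Function.Periodic (fun k => Nat.Coprime (F k) Q) W) (h0 : Nat.Coprime (F 0) Q) :
    ∀ᵐ ω ∂μ, Tendsto (fun K : ℕ => ({k : ℕ | k < K ∧ ω ∈ A (F k)}.ncard : ℝ) / Real.log K) atTop
      (𝓝 (((Q : ℝ) / Nat.totient Q) * ((Nat.count (fun k => Nat.Coprime (F k) Q) W : ℝ) / W) / L)) := by
  obtain ⟨hδ0, h1⟩ := expected Q hQ F L hL hF W hW hp h0
  set δ : ℝ := (Nat.count (fun k => Nat.Coprime (F k) Q) W : ℝ) / W with hδ
  set c : ℝ := (Q : ℝ) / Nat.totient Q with hc
  have hcpos : 0 < c := div_pos (by exact_mod_cast hQ) (by exact_mod_cast Nat.totient_pos.2 hQ)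
  have hκ : 0 < c * δ / L := by positivity
  have hU : Tendsto (fun K : ℕ => c * δ / L * Real.log K) atTop atTop :=
    logN_top.const_mul_atTop hκ
  have h2 : Tendsto (fun K : ℕ => ∑ k ∈ Finset.range K, rhoW Q (F k)) atTop atTop := by
    have h3 := h1.pos_mul_atTop one_pos hU
    refine h3.congr' ?_
    filter_upwards [logN_top.eventually_gt_atTop 0] with K hK
    rw [div_mul_cancel₀]
    positivity
  have h3 := general_final (μ := μ) (ι := Unit) hA (rhoW Q) (fun n => ⟨rhoW_nonneg Q n, rhoW_le Q n⟩) hd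
    {()} (fun _ => F) (fun _ _ => Eventually.of_forall hmono) (fun i _ j _ hij => absurd rfl hij) (by simpa using h2)
  filter_upwards [h3] with ω hω
  have h4 := (hω.mul h1).mul_const (c * δ / L)
  rw [mul_one, one_mul] at h4
  refine h4.congr' ?_
  filter_upwards [logN_top.eventually_gt_atTop 0, h2.eventually_gt_atTop 0] with K g1 g2
  simp only [Finset.mem_singleton, Finset.prod_singleton, forall_const]
  field_simp

end Pool.Agent.N233.PE
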