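import Mathlib
import Pool.Agent.R528.RM.BHOut
import Pool.Agent.N233.PE.Law

set_option autoImplicit false

/-!
# Polynomial values at the solutions of `x ^ 2 - (A ^ 2 - 1) y ^ 2 = 1` in sieved models (helper233)
-/

open MeasureTheory Filter Set Polynomial
open scoped Topology

namespace Pool.Agent.N233.PE

open Pool.Agent.R528.RM

/-- the solutions of `x ^ 2 - (A ^ 2 - 1) y ^ 2 = 1` -/
def py (A : ℕ) : ℕ → ℕ × ℕ
  | 0 => (1, 0)
  | m + 1 => (A * (py A m).1 + (A * A - 1) * (py A m).2, (py A m).1 + A * (py A m).2)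

def X' (A m : ℕ) : ℕ := (py A m).1
def Y' (A m : ℕ) : ℕ := (py A m).2

lemma X_zero (A : ℕ) : X' A 0 = 1 := rfl
lemma Y_zero (A : ℕ) : Y' A 0 = 0 := rfl
lemma X_succ (A m : ℕ) : X' A (m + 1) = A * X' A m + (A * A - 1) * Y' A m := rfl
lemma Y_succ (A m : ℕ) : Y' A (m + 1) = X' A m + A * Y' A m := rfl

lemma X_pos {A : ℕ} (hA : 2 ≤ A) (m : ℕ) : 0 < X' A m := by
  induction m with
  | zero => rw [X_zero]; exact one_pos
  | succ m ih => rw [X_succ]; positivity

lemma X_lt {A : ℕ} (hA : 2 ≤ A) (m : ℕ) : X' A m < X' A (m + 1) := by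
  have := X_pos hA m
  rw [X_succ]
  nlinarith [Nat.zero_le ((A * A - 1) * Y' A m)]

lemma cast_d {A : ℕ} (hA : 2 ≤ A) : ((A * A - 1 : ℕ) : ℝ) = (A : ℝ) ^ 2 - 1 := by
  rw [Nat.cast_sub (by nlinarith)]
  push_cast
  ring

lemma cast_dZ {A : ℕ} (hA : 2 ≤ A) : ((A * A - 1 : ℕ) : ℤ) = (A : ℤ) ^ 2 - 1 := by
  rw [Nat.cast_sub (by nlinarith)]
  push_cast
  ring

lemma XY_eq {A : ℕ} (hA : 2 ≤ A) (m : ℕ) : (X' A m : ℤ) ^ 2 - ((A : ℤ) ^ 2 - 1) * (Y' A m : ℤ) ^ 2 = 1 := by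
  induction m with
  | zero => simp [X_zero, Y_zero]
  | succ m ih =>
    rw [X_succ, Y_succ]
    push_cast
    rw [cast_dZ hA]
    linear_combination ih

lemma XY_pow {A : ℕ} (hA : 2 ≤ A) (m : ℕ) :
    (X' A m : ℝ) + Y' A m * √((A : ℝ) ^ 2 - 1) = (A + √((A : ℝ) ^ 2 - 1)) ^ m := by
  have hA' : (2 : ℝ) ≤ A := by exact_mod_cast hA
  have h2 : √((A : ℝ) ^ 2 - 1) * √((A : ℝ) ^ 2 - 1) = (A : ℝ) ^ 2 - 1 := Real.mul_self_sqrt (by nlinarith)
  induction m with
  | zero => simp [X_zero, Y_zero]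
  | succ m ih =>
    rw [pow_succ ((A : ℝ) + √((A : ℝ) ^ 2 - 1)) m, ← ih, X_succ, Y_succ]
    push_cast
    rw [cast_d hA]
    linear_combination (-(Y' A m : ℝ)) * h2

lemma X_bd {A : ℕ} (hA : 2 ≤ A) (m : ℕ) : (A + √((A : ℝ) ^ 2 - 1)) ^ m / 2 ≤ X' A m ∧
    (X' A m : ℝ) ≤ (A + √((A : ℝ) ^ 2 - 1)) ^ m := by
  have hA' : (2 : ℝ) ≤ A := by exact_mod_cast hA
  have h2 : √((A : ℝ) ^ 2 - 1) * √((A : ℝ) ^ 2 - 1) = (A : ℝ) ^ 2 - 1 := Real.mul_self_sqrt (by nlinarith)
  rw [← XY_pow hA]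
  have h3 : (0 : ℝ) ≤ Y' A m * √((A : ℝ) ^ 2 - 1) := by positivity
  have h4 : (Y' A m : ℝ) * √((A : ℝ) ^ 2 - 1) ≤ X' A m := by
    have h5 : (X' A m : ℝ) ^ 2 - ((A : ℝ) ^ 2 - 1) * (Y' A m : ℝ) ^ 2 = 1 := by exact_mod_cast XY_eq hA m
    rw [← sq_le_sq₀ h3 (by positivity), mul_pow, sq (√((A : ℝ) ^ 2 - 1)), h2]
    linarith
  constructor <;> linarith

lemma alpha_gt {A : ℕ} (hA : 2 ≤ A) : 1 < (A : ℝ) + √((A : ℝ) ^ 2 - 1) := by
  have hA' : (2 : ℝ) ≤ A := by exact_mod_cast hA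
  have := Real.sqrt_nonneg ((A : ℝ) ^ 2 - 1)
  linarith

lemma X_growth {A : ℕ} (hA : 2 ≤ A) :
    Tendsto (fun m : ℕ => Real.log (X' A m) / m) atTop (𝓝 (Real.log (A + √((A : ℝ) ^ 2 - 1)))) := by
  set α : ℝ := A + √((A : ℝ) ^ 2 - 1) with hα
  have h1 : 1 < α := alpha_gt hA
  have h0 : 0 < α := by linarith
  set l := Real.log α with hl
  have t1 : Tendsto (fun k : ℕ => l + (-Real.log 2) / k) atTop (𝓝 l) := by
    simpa using (tendsto_const_div_atTop_nhds_zero_nat (-Real.log 2)).const_add l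
  refine tendsto_of_tendsto_of_tendsto_of_le_of_le' t1 tendsto_const_nhds ?_ ?_
  · filter_upwards [eventually_gt_atTop 0] with k hk
    have hk' : (0 : ℝ) < k := by exact_mod_cast hk
    have h6 := Real.log_le_log (by positivity) (X_bd hA k).1
    rw [← hα, Real.log_div (by positivity) (by norm_num), Real.log_pow] at h6
    rw [le_div_iff₀ hk', add_mul, div_mul_cancel₀ _ hk'.ne']
    linarith
  · filter_upwards [eventually_gt_atTop 0] with k hk
    have hk' : (0 : ℝ) < k := by exact_mod_cast hk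
    have h7 : (0 : ℝ) < X' A k := by exact_mod_cast X_pos hA k
    have h6 := Real.log_le_log h7 (X_bd hA k).2
    rw [← hα, Real.log_pow] at h6
    rw [div_le_iff₀ hk']
    linarith

lemma X_top {A : ℕ} (hA : 2 ≤ A) : Tendsto (fun m => X' A m) atTop atTop :=
  (strictMono_nat_of_lt_succ (X_lt hA)).tendsto_atTop

/-- the recursion modulo `Q`, a permutation -/
def TT (A Q : ℕ) : Equiv.Perm (ZMod Q × ZMod Q) where
  toFun x := (A * x.1 + (A ^ 2 - 1) * x.2, x.1 + A * x.2)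
  invFun x := (A * x.1 - (A ^ 2 - 1) * x.2, A * x.2 - x.1)
  left_inv x := by
    ext <;> simp <;> ring
  right_inv x := by
    ext <;> simp <;> ring

lemma TT_pow {A : ℕ} (hA : 2 ≤ A) (Q k : ℕ) :
    ((X' A k : ZMod Q), (Y' A k : ZMod Q)) = (TT A Q ^ k) (1, 0) := by
  induction k with
  | zero => simp [X_zero, Y_zero]
  | succ k ih =>
    rw [pow_succ', Equiv.Perm.mul_apply, ← ih, X_succ, Y_succ]
    have h : ((A * A - 1 : ℕ) : ZMod Q) = (A : ZMod Q) ^ 2 - 1 := by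
      rw [Nat.cast_sub (by nlinarith)]
      push_cast
      ring
    simp [TT, h]

/-- coprimality of the values is periodic -/
lemma X_periodic {A : ℕ} (hA : 2 ≤ A) (Q : ℕ) (hQ : 0 < Q) (f : ℤ[X]) : ∃ W, 0 < W ∧
    Function.Periodic (fun m => IsCoprime (f.eval (X' A m : ℤ)) (Q : ℤ)) W := by
  have : NeZero Q := ⟨hQ.ne'⟩
  refine ⟨orderOf (TT A Q), orderOf_pos _, ?_⟩
  intro k
  have h1 := TT_pow hA Q (k + orderOf (TT A Q))
  rw [pow_add, pow_orderOf_eq_one, mul_one, ← TT_pow hA] at h1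
  have h2 := congrArg Prod.fst h1
  simp only at h2
  have key : ∀ z : ℤ, IsCoprime z (Q : ℤ) ↔ IsUnit (z : ZMod Q) := by
    intro z
    rw [ZMod.coe_int_isUnit_iff_isCoprime]
    exact isCoprime_comm
  have h3 : ((f.eval (X' A (k + orderOf (TT A Q)) : ℤ) : ℤ) : ZMod Q) = ((f.eval (X' A k : ℤ) : ℤ) : ZMod Q) := by
    have e : ∀ n : ℕ, ((f.eval (n : ℤ) : ℤ) : ZMod Q) = (f.map (Int.castRingHom (ZMod Q))).eval (n : ZMod Q) := by
      intro n
      rw [Polynomial.eval_map, Polynomial.eval₂_at_natCast]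
      simp
    rw [e, e, h2]
  simp only [key, h3]

/-- the expected number of chosen terms -/
lemma expected' (Q : ℕ) (hQ : 0 < Q) (F : ℕ → ℕ) (L : ℝ) (hL : 0 < L)
    (hF : Tendsto (fun k : ℕ => Real.log (F k) / k) atTop (𝓝 L)) (W : ℕ) (hW : 0 < W)
    (p : ℕ → Prop) [DecidablePred p] (hFp : ∀ᶠ k in atTop, (Nat.Coprime (F k) Q ↔ p k))
    (hp : Function.Periodic p W) (h0 : ∃ k, p k) :
    0 < (Nat.count p W : ℝ) / W ∧
    Tendsto (fun K : ℕ => (∑ k ∈ Finset.range K, rhoW Q (F k)) /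
      (((Q : ℝ) / Nat.totient Q) * ((Nat.count p W : ℝ) / W) / L * Real.log K))
      atTop (𝓝 1) := by
  set δ : ℝ := (Nat.count p W : ℝ) / W with hδ
  set c : ℝ := (Q : ℝ) / Nat.totient Q with hc
  have hWr : (0 : ℝ) < W := by exact_mod_cast hW
  have hcpos : 0 < c := div_pos (by exact_mod_cast hQ) (by exact_mod_cast Nat.totient_pos.2 hQ)
  have hδ0 : 0 < δ := by
    refine div_pos ?_ hWr
    have h1 : 0 < Nat.count p W := by
      obtain ⟨k, hk⟩ := h0
      rw [Nat.count_eq_card_filter_range]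
      refine Finset.card_pos.2 ⟨k % W, Finset.mem_filter.2 ⟨Finset.mem_range.2 (Nat.mod_lt _ hW), ?_⟩⟩
      rw [hp.map_mod_nat]
      exact hk
    exact_mod_cast h1
  refine ⟨hδ0, ?_⟩
  have hkk : Tendsto (fun k : ℕ => Real.log (F k)) atTop atTop := by
    have h1 : Tendsto (fun k : ℕ => Real.log (F k) / k * k) atTop atTop :=
      hF.pos_mul_atTop hL tendsto_natCast_atTop_atTop
    refine h1.congr' ?_
    filter_upwards [eventually_gt_atTop 0] with k hk
    have : (k : ℝ) ≠ 0 := by exact_mod_cast hk.ne'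
    field_simp
  -- the terms
  set a : ℕ → ℝ := fun k => (c / L) * ((if p k then (1 : ℝ) else 0) * (1 / ((k : ℝ) + 1))) with ha
  have hU : Tendsto (fun K : ℕ => c * δ / L * Real.log K) atTop atTop :=
    logN_top.const_mul_atTop (by positivity)
  refine sum_ratio (a := a) (b := fun k => rhoW Q (F k)) ?_ hU ?_ ?_
  · intro n
    simp only [ha]
    split_ifs <;> positivity
  · intro ε hε
    have h1 : Tendsto (fun k : ℕ => ((k : ℝ) + 1) / Real.log (F k)) atTop (𝓝 L⁻¹) := by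
      have h2 := (hF.inv₀ hL.ne')
      have h3 : Tendsto (fun n : ℕ => 1 + (1 : ℝ) / n) atTop (𝓝 (1 + 0)) :=
        tendsto_const_nhds.add tendsto_one_div_atTop_nhds_zero_nat
      rw [add_zero] at h3
      have h4 := h2.mul h3
      rw [mul_one] at h4
      refine h4.congr' ?_
      filter_upwards [eventually_gt_atTop 0] with k hk
      have : (k : ℝ) ≠ 0 := by exact_mod_cast hk.ne'
      field_simp
    have h2 : Tendsto (fun k : ℕ => L * (((k : ℝ) + 1) / Real.log (F k))) atTop (𝓝 1) := by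
      have := h1.const_mul L
      rwa [mul_inv_cancel₀ hL.ne'] at this
    filter_upwards [(Metric.tendsto_nhds.1 h2) ε hε, hkk.eventually_ge_atTop c, hFp] with k g1 g2 g3
    have hlk : 0 < Real.log (F k) := by linarith
    simp only [ha]
    unfold rhoW
    by_cases hk : Nat.Coprime (F k) Q
    · rw [if_pos hk, if_pos (g3.1 hk), ← hc, min_eq_right (by rwa [div_le_one hlk])]
      rw [Real.dist_eq] at g1
      have e1 : c / Real.log (F k) - c / L * (1 * (1 / ((k : ℝ) + 1))) =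
          (L * (((k : ℝ) + 1) / Real.log (F k)) - 1) * (c / L * (1 * (1 / ((k : ℝ) + 1)))) := by
        have : ((k : ℝ) + 1) ≠ 0 := by positivity
        field_simp
      have h3 : 0 < c / L * (1 * (1 / ((k : ℝ) + 1))) := by positivity
      rw [e1, abs_mul, abs_of_pos h3]
      exact mul_le_mul_of_nonneg_right g1.le h3.le
    · rw [if_neg hk, if_neg (fun h => hk (g3.2 h))]
      simp
  · have h1 := harm_periodic p W hW hp
    have h2 : Tendsto (fun N : ℕ => δ⁻¹ * ((∑ i ∈ Finset.range N, (if p i then (1 : ℝ) else 0) *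
        (1 / ((i : ℝ) + 1))) / Real.log N)) atTop (𝓝 (δ⁻¹ * δ)) := h1.const_mul _
    rw [inv_mul_cancel₀ hδ0.ne'] at h2
    refine h2.congr' ?_
    filter_upwards [logN_top.eventually_gt_atTop 0] with N hN
    simp only [ha]
    rw [← Finset.mul_sum]
    field_simp

variable {Ω : Type} {m0 : MeasurableSpace Ω} {μ : Measure Ω} [IsProbabilityMeasure μ]
  {ℱ : Filtration ℕ m0} {A : ℕ → Set Ω}

/-- the number of chosen terms -/
theorem count_law' (hA : ∀ n, MeasurableSet[ℱ n] (A n)) (Q : ℕ) (hQ : 0 < Q)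
    (hd : ∀ᵐ ω ∂μ, ∀ ε : ℝ, 0 < ε → ∀ᶠ n : ℕ in atTop,
      |dens μ ℱ A n ω - rhoW Q (n + 1)| ≤ ε * rhoW Q (n + 1))
    (F : ℕ → ℕ) (hmono : ∀ᶠ n in atTop, F n < F (n + 1)) (L : ℝ) (hL : 0 < L)
    (hF : Tendsto (fun k : ℕ => Real.log (F k) / k) atTop (𝓝 L)) (W : ℕ) (hW : 0 < W)
    (p : ℕ → Prop) [DecidablePred p] (hFp : ∀ᶠ k in atTop, (Nat.Coprime (F k) Q ↔ p k))
    (hp : Function.Periodic p W) (h0 : ∃ k, p k) :
    ∀ᵐ ω ∂μ, Tendsto (fun K : ℕ => ({k : ℕ | k < K ∧ ω ∈ A (F k)}.ncard : ℝ) / Real.log K) atTop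
      (𝓝 (((Q : ℝ) / Nat.totient Q) * ((Nat.count p W : ℝ) / W) / L)) := by
  obtain ⟨hδ0, h1⟩ := expected' Q hQ F L hL hF W hW p hFp hp h0
  set δ : ℝ := (Nat.count p W : ℝ) / W with hδ
  set c : ℝ := (Q : ℝ) / Nat.totient Q with hc
  have hcpos : 0 < c := div_pos (by exact_mod_cast hQ) (by exact_mod_cast Nat.totient_pos.2 hQ)
  have hκ : 0 < c * δ / L := by positivity
  have hU : Tendsto (fun K : ℕ => c * δ / L * Real.log K) atTop atTop :=
    logN_top.const_mul_atTop hκ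
  have h2 : Tendsto (fun K : ℕ => ∑ k ∈ Finset.range K, rhoW Q (F k)) atTop atTop := by
    have h3 := h1.pos_mul_atTop one_pos hU
    refine h3.congr' ?_
    filter_upwards [logN_top.eventually_gt_atTop 0] with K hK
    rw [div_mul_cancel₀]
    positivity
  have h3 := general_final (μ := μ) (ι := Unit) hA (rhoW Q) (fun n => ⟨rhoW_nonneg Q n, rhoW_le Q n⟩) hd
    {()} (fun _ => F) (fun _ _ => hmono) (fun i _ j _ hij => absurd rfl hij) (by simpa using h2)
  filter_upwards [h3] with ω hω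
  have h4 := (hω.mul h1).mul_const (c * δ / L)
  rw [mul_one, one_mul] at h4
  refine h4.congr' ?_
  filter_upwards [logN_top.eventually_gt_atTop 0, h2.eventually_gt_atTop 0] with K g1 g2
  simp only [Finset.mem_singleton, Finset.prod_singleton, forall_const]
  field_simp


/-- densities of periodic sets -/
lemma dens_p (p : ℕ → Prop) [DecidablePred p] (W : ℕ) (hW : 0 < W) (hp : Function.Periodic p W) :
    Tendsto (fun K : ℕ => ({k : ℕ | k < K ∧ p k}.ncard : ℝ) / K) atTop (𝓝 ((Nat.count p W : ℝ) / W)) := by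
  refine (periodic_dens p W hW hp).congr fun K => ?_
  congr 1
  rw [Finset.sum_boole]
  congr 1
  rw [← Set.ncard_coe_finset]
  congr 1
  ext k
  simp

/-- the law for one polynomial and one `B` -/
theorem poly_law (hA : ∀ n, MeasurableSet[ℱ n] (A n)) (Q : ℕ) (hQ : 0 < Q)
    (hcop : ∀ n, ¬ Nat.Coprime n Q → A n = ∅)
    (hd : ∀ᵐ ω ∂μ, ∀ ε : ℝ, 0 < ε → ∀ᶠ n : ℕ in atTop,
      |dens μ ℱ A n ω - rhoW Q (n + 1)| ≤ ε * rhoW Q (n + 1))
    (B : ℕ) (hB : 2 ≤ B) (f : ℤ[X]) (hf : 0 < f.natDegree) (hl : 0 < f.leadingCoeff) (a : ℝ)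
    (ha : Tendsto (fun K : ℕ => ({k : ℕ | k < K ∧ IsCoprime (f.eval (X' B k : ℤ)) (Q : ℤ)}.ncard : ℝ) / K) atTop (𝓝 a)) :
    ∀ᵐ ω ∂μ, Tendsto (fun K : ℕ => ({k : ℕ | k < K ∧ ω ∈ A (f.eval (X' B k : ℤ)).toNat}.ncard : ℝ) / Real.log K) atTop
      (𝓝 (((Q : ℝ) / Nat.totient Q) * a / (f.natDegree * Real.log (B + √((B : ℝ) ^ 2 - 1))))) := by
  classical
  obtain ⟨W, hW, hp⟩ := X_periodic hB Q hQ f
  have hfp : ∀ᶠ k in atTop, 0 < f.eval ((X' B k : ℕ) : ℤ) := (X_top hB).eventually (ev_pos_int f hl)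
  have hFp : ∀ᶠ k in atTop, (Nat.Coprime (f.eval ((X' B k : ℕ) : ℤ)).toNat Q ↔ IsCoprime (f.eval (X' B k : ℤ)) (Q : ℤ)) := by
    filter_upwards [hfp] with k hk
    rw [← Nat.isCoprime_iff_coprime, Int.toNat_of_nonneg hk.le]
  have hden := dens_p (fun k => IsCoprime (f.eval (X' B k : ℤ)) (Q : ℤ)) W hW hp
  have haeq := tendsto_nhds_unique ha hden
  by_cases h0 : ∃ k, IsCoprime (f.eval (X' B k : ℤ)) (Q : ℤ)
  · rw [haeq]
    have hα := Real.log_pos (alpha_gt hB)
    have hfd : (0 : ℝ) < f.natDegree := by exact_mod_cast hf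
    refine count_law' (μ := μ) hA Q hQ hd (fun k => (f.eval (X' B k : ℤ)).toNat) ?_ _ (by positivity) ?_ W hW
      (fun k => IsCoprime (f.eval (X' B k : ℤ)) (Q : ℤ)) hFp hp h0
    · -- monotone
      have h1 : ∀ᶠ n in atTop, ∀ m, n ≤ m → pv f m < pv f (m + 1) := by
        obtain ⟨n₀, h⟩ := eventually_atTop.1 (pv_mono f hf hl)
        filter_upwards [eventually_ge_atTop n₀] with n hn m hm
        exact h m (hn.trans hm)
      filter_upwards [(X_top hB).eventually h1] with k hk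
      have h2 : ∀ j, pv f (X' B k) < pv f (X' B k + (j + 1)) := by
        intro j
        induction j with
        | zero => exact hk _ le_rfl
        | succ j ih => exact ih.trans (hk _ (by omega))
      have h3 := X_lt hB k
      have h4 := h2 (X' B (k + 1) - X' B k - 1)
      rw [show X' B k + (X' B (k + 1) - X' B k - 1 + 1) = X' B (k + 1) by omega] at h4
      exact h4
    · -- growth
      have h1 := (pv_log f hl).comp (X_top hB)
      have h2 := h1.mul (X_growth hB)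
      refine h2.congr' ?_
      have h3 : Tendsto (fun k => Real.log (X' B k)) atTop atTop :=
        (Real.tendsto_log_atTop.comp tendsto_natCast_atTop_atTop).comp (X_top hB)
      filter_upwards [h3.eventually_gt_atTop 0] with k hk
      simp only [Function.comp_apply, pv]
      field_simp
  · have h1 : Nat.count (fun k => IsCoprime (f.eval (X' B k : ℤ)) (Q : ℤ)) W = 0 := by
      rw [Nat.count_eq_card_filter_range, Finset.card_eq_zero, Finset.filter_eq_empty_iff]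
      intro k _ hk
      exact h0 ⟨k, hk⟩
    have ha0 : a = 0 := by rw [haeq, h1]; simp
    rw [ha0, mul_zero, zero_div]
    obtain ⟨k₀, hk₀⟩ := eventually_atTop.1 hFp
    refine Eventually.of_forall fun ω => ?_
    have k1 : Tendsto (fun K : ℕ => (k₀ : ℝ) / Real.log K) atTop (𝓝 0) :=
      Tendsto.div_atTop tendsto_const_nhds logN_top
    refine squeeze_zero' ?_ ?_ k1
    · filter_upwards [logN_top.eventually_gt_atTop 0] with x hx
      positivity
    · filter_upwards [logN_top.eventually_gt_atTop 0] with x hx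
      apply div_le_div_of_nonneg_right _ hx.le
      have hsub : {k : ℕ | k < x ∧ ω ∈ A (f.eval (X' B k : ℤ)).toNat} ⊆ (Finset.range k₀ : Set ℕ) := by
        rintro k ⟨_, hk⟩
        simp only [Finset.coe_range, Set.mem_Iio]
        by_contra hc
        push Not at hc
        by_cases hcp : Nat.Coprime (f.eval ((X' B k : ℕ) : ℤ)).toNat Q
        · exact h0 ⟨k, (hk₀ k hc).1 hcp⟩
        · rw [hcop _ hcp] at hk
          exact hk
      have := Set.ncard_le_ncard hsub (Finset.finite_toSet _)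
      rw [Set.ncard_coe_finset, Finset.card_range] at this
      exact_mod_cast this

/-- for all polynomials and all `B` at once -/
theorem poly_all (hA : ∀ n, MeasurableSet[ℱ n] (A n)) (Q : ℕ) (hQ : 0 < Q)
    (hcop : ∀ n, ¬ Nat.Coprime n Q → A n = ∅)
    (hd : ∀ᵐ ω ∂μ, ∀ ε : ℝ, 0 < ε → ∀ᶠ n : ℕ in atTop,
      |dens μ ℱ A n ω - rhoW Q (n + 1)| ≤ ε * rhoW Q (n + 1)) :
    ∀ᵐ ω ∂μ, ∀ (B : ℕ) (f : ℤ[X]), 2 ≤ B → 0 < f.natDegree → 0 < f.leadingCoeff → ∀ a : ℝ,
      Tendsto (fun K : ℕ => ({k : ℕ | k < K ∧ IsCoprime (f.eval (X' B k : ℤ)) (Q : ℤ)}.ncard : ℝ) / K) atTop (𝓝 a) →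
      Tendsto (fun K : ℕ => ({k : ℕ | k < K ∧ ω ∈ A (f.eval (X' B k : ℤ)).toNat}.ncard : ℝ) / Real.log K) atTop
        (𝓝 (((Q : ℝ) / Nat.totient Q) * a / (f.natDegree * Real.log (B + √((B : ℝ) ^ 2 - 1))))) := by
  classical
  rw [ae_all_iff]
  intro B
  rw [ae_all_iff]
  intro f
  by_cases h : 2 ≤ B ∧ 0 < f.natDegree ∧ 0 < f.leadingCoeff
  · obtain ⟨hB, hf, hl⟩ := h
    obtain ⟨W, hW, hp⟩ := X_periodic hB Q hQ f
    have hden := dens_p (fun k => IsCoprime (f.eval (X' B k : ℤ)) (Q : ℤ)) W hW hp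
    filter_upwards [poly_law (μ := μ) hA Q hQ hcop hd B hB f hf hl _ hden] with ω hω _ _ _ a ha
    rw [tendsto_nhds_unique ha hden]
    exact hω
  · exact Eventually.of_forall fun ω h1 h2 h3 => absurd ⟨h1, h2, h3⟩ h

/-- the solutions of `d ^ 2 - 8 b ^ 2 = 1` -/
lemma sol8 : ∀ b d : ℕ, d ^ 2 = 8 * b ^ 2 + 1 → ∃ k, d = X' 3 k ∧ b = Y' 3 k := by
  intro b
  induction b using Nat.strong_induction_on with
  | _ b ih =>
    intro d h
    rcases Nat.eq_zero_or_pos b with hb | hb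
    · subst hb
      have : d = 1 := by nlinarith
      exact ⟨0, this, rfl⟩
    · have h1 : 8 * b ≤ 3 * d := by
        by_contra hc
        push Not at hc
        have : (3 * d + 1) ^ 2 ≤ (8 * b) ^ 2 := Nat.pow_le_pow_left hc 2
        nlinarith
      have h2 : d ≤ 3 * b := by
        by_contra hc
        push Not at hc
        have : (3 * b + 1) ^ 2 ≤ d ^ 2 := Nat.pow_le_pow_left hc 2
        nlinarith
      obtain ⟨a, ha⟩ := Nat.exists_eq_add_of_le h1
      obtain ⟨c, hc⟩ := Nat.exists_eq_add_of_le h2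
      have hc1 : c < b := by
        by_contra hcc
        push Not at hcc
        have h3 : d ≤ 2 * b := by omega
        have := Nat.pow_le_pow_left h3 2
        nlinarith
      have hac : a ^ 2 = 8 * c ^ 2 + 1 := by
        have ha' : (a : ℤ) = 3 * d - 8 * b := by
          have : (3 * d : ℤ) = 8 * b + a := by exact_mod_cast ha
          linarith
        have hc' : (c : ℤ) = 3 * b - d := by
          have : (3 * b : ℤ) = d + c := by exact_mod_cast hc
          linarith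
        have h' : (d : ℤ) ^ 2 = 8 * b ^ 2 + 1 := by exact_mod_cast h
        have : (a : ℤ) ^ 2 = 8 * c ^ 2 + 1 := by
          rw [ha', hc']
          nlinarith
        exact_mod_cast this
      obtain ⟨k, hk1, hk2⟩ := ih c hc1 a hac
      refine ⟨k + 1, ?_, ?_⟩
      · rw [X_succ, ← hk1, ← hk2]
        omega
      · rw [Y_succ, ← hk1, ← hk2]
        omega

end Pool.Agent.N233.PE
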