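import Mathlib
import Pool.Agent.R528.RM.BHOut

set_option autoImplicit false

/-!
# Pell equations: only finitely many solutions with both members chosen (helper233)
-/

open MeasureTheory Filter Set
open scoped Topology

namespace Pool.Agent.N233.PE

open Pool.Agent.R528.RM

/-- solutions of `x ^ 2 - D y ^ 2 = M` in natural numbers -/
def E (D : ℕ) (M : ℤ) : Set (ℕ × ℕ) := {e | (e.1 : ℤ) ^ 2 - D * (e.2 : ℤ) ^ 2 = M}

/-- `x + y √D` -/
noncomputable def v (D : ℕ) (e : ℕ × ℕ) : ℝ := e.1 + e.2 * √(D : ℝ)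

lemma v_mul {D : ℕ} {M : ℤ} {e : ℕ × ℕ} (he : e ∈ E D M) : v D e * (e.1 - e.2 * √(D : ℝ)) = M := by
  have h : (e.1 : ℤ) ^ 2 - D * (e.2 : ℤ) ^ 2 = M := he
  have h' : (e.1 : ℝ) ^ 2 - D * (e.2 : ℝ) ^ 2 = M := by exact_mod_cast h
  have h2 : √(D : ℝ) * √(D : ℝ) = D := Real.mul_self_sqrt (Nat.cast_nonneg _)
  unfold v
  rw [← h']
  linear_combination (-(e.2 : ℝ) ^ 2) * h2

lemma v_nonneg (D : ℕ) (e : ℕ × ℕ) : 0 ≤ v D e := by unfold v; positivity

lemma v_pos {D : ℕ} {M : ℤ} (hM : M ≠ 0) {e : ℕ × ℕ} (he : e ∈ E D M) : 0 < v D e := by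
  rcases (v_nonneg D e).lt_or_eq with h | h
  · exact h
  · have := v_mul he
    rw [← h, zero_mul] at this
    exact absurd (by exact_mod_cast this.symm) hM

lemma sqrtD {D : ℕ} (hD : 1 ≤ D) : 1 ≤ √(D : ℝ) := by
  rw [Real.one_le_sqrt]
  exact_mod_cast hD

lemma v_ge_one {D : ℕ} (hD : 1 ≤ D) {M : ℤ} (hM : M ≠ 0) {e : ℕ × ℕ} (he : e ∈ E D M) : 1 ≤ v D e := by
  have h1 := v_pos hM he
  have h2 := sqrtD hD
  by_cases hx : e.1 = 0
  · by_cases hy : e.2 = 0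
    · unfold v at h1
      rw [hx, hy] at h1
      simp at h1
    · have : (1 : ℝ) ≤ e.2 := by exact_mod_cast Nat.one_le_iff_ne_zero.2 hy
      unfold v
      have h3 : (0 : ℝ) ≤ e.1 := Nat.cast_nonneg _
      nlinarith
  · have : (1 : ℝ) ≤ e.1 := by exact_mod_cast Nat.one_le_iff_ne_zero.2 hx
    unfold v
    have h3 : (0 : ℝ) ≤ e.2 * √(D : ℝ) := by positivity
    linarith

/-- in a residue class the values at least double -/
lemma dbl {D : ℕ} (hD : 1 ≤ D) {M : ℤ} (hM : M ≠ 0) {e f : ℕ × ℕ} (he : e ∈ E D M) (hf : f ∈ E D M)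
    (h1 : (e.1 : ℤ) ≡ f.1 [ZMOD M]) (h2 : (e.2 : ℤ) ≡ f.2 [ZMOD M]) (hv : v D e < v D f) :
    2 * v D e ≤ v D f := by
  have he' : (e.1 : ℤ) ^ 2 - D * (e.2 : ℤ) ^ 2 = M := he
  have hf' : (f.1 : ℤ) ^ 2 - D * (f.2 : ℤ) ^ 2 = M := hf
  have hA : M ∣ (e.1 : ℤ) * f.1 - D * (e.2 * f.2) := by
    have k1 : (e.1 : ℤ) * f.1 - D * (e.2 * f.2) ≡ (e.1 : ℤ) * e.1 - D * (e.2 * e.2) [ZMOD M] :=
      (h1.symm.mul_left _).sub ((h2.symm.mul_left _).mul_left _)
    have k2 : (e.1 : ℤ) * e.1 - D * (e.2 * e.2) = M := by rw [← he']; ring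
    rw [k2] at k1
    exact Int.modEq_zero_iff_dvd.1 (k1.trans (Int.modEq_zero_iff_dvd.2 dvd_rfl))
  have hB : M ∣ (e.1 : ℤ) * f.2 - f.1 * e.2 := by
    have k1 : (e.1 : ℤ) * f.2 - f.1 * e.2 ≡ (e.1 : ℤ) * e.2 - e.1 * e.2 [ZMOD M] :=
      (h2.symm.mul_left _).sub (h1.symm.mul_right _)
    rw [sub_self] at k1
    exact Int.modEq_zero_iff_dvd.1 k1
  obtain ⟨a, ha⟩ := hA
  obtain ⟨b, hb⟩ := hB
  have hM2 : (M : ℤ) ^ 2 * (a ^ 2 - D * b ^ 2) = M ^ 2 * 1 := by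
    have : ((e.1 : ℤ) * f.1 - D * (e.2 * f.2)) ^ 2 - D * ((e.1 : ℤ) * f.2 - f.1 * e.2) ^ 2 =
        ((e.1 : ℤ) ^ 2 - D * (e.2 : ℤ) ^ 2) * ((f.1 : ℤ) ^ 2 - D * (f.2 : ℤ) ^ 2) := by ring
    rw [ha, hb, he', hf'] at this
    linear_combination this
  have hu := mul_left_cancel₀ (pow_ne_zero 2 hM) hM2
  have h3 : √(D : ℝ) * √(D : ℝ) = D := Real.mul_self_sqrt (Nat.cast_nonneg _)
  have hMr : (M : ℝ) ≠ 0 := by exact_mod_cast hM
  set u : ℝ := a + b * √(D : ℝ) with hudef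
  have hvu : v D f = v D e * u := by
    have k1 := v_mul he
    have k2 : v D f * (e.1 - e.2 * √(D : ℝ)) = M * u := by
      have ha' : (e.1 : ℝ) * f.1 - D * (e.2 * f.2) = M * a := by exact_mod_cast ha
      have hb' : (e.1 : ℝ) * f.2 - f.1 * e.2 = M * b := by exact_mod_cast hb
      rw [hudef]
      unfold v
      linear_combination ha' + √(D : ℝ) * hb' - (e.2 : ℝ) * f.2 * h3
    have k3 : M * v D f = M * (v D e * u) := by
      calc M * v D f = (v D e * (e.1 - e.2 * √(D : ℝ))) * v D f := by rw [k1]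
        _ = v D e * (v D f * (e.1 - e.2 * √(D : ℝ))) := by ring
        _ = v D e * (M * u) := by rw [k2]
        _ = M * (v D e * u) := by ring
    exact mul_left_cancel₀ hMr k3
  have hve := v_pos hM he
  have hu1 : 1 < u := by
    by_contra hc
    push Not at hc
    have : v D e * u ≤ v D e * 1 := mul_le_mul_of_nonneg_left hc hve.le
    rw [← hvu, mul_one] at this
    linarith
  have hprod : u * (a - b * √(D : ℝ)) = 1 := by
    have hu' : (a : ℝ) ^ 2 - D * (b : ℝ) ^ 2 = 1 := by exact_mod_cast hu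
    rw [hudef]
    linear_combination hu' - (b : ℝ) ^ 2 * h3
  have hw0 : 0 < (a : ℝ) - b * √(D : ℝ) := by
    by_contra hc
    push Not at hc
    have := mul_nonpos_of_nonneg_of_nonpos (by linarith : (0:ℝ) ≤ u) hc
    linarith
  have hw1 : (a : ℝ) - b * √(D : ℝ) < 1 := by
    by_contra hc
    push Not at hc
    nlinarith
  have hs := sqrtD hD
  have hb0 : 0 < b := by
    by_contra hc
    push Not at hc
    have hc' : (b : ℝ) ≤ 0 := by exact_mod_cast hc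
    have : (b : ℝ) * √(D : ℝ) ≤ 0 := mul_nonpos_of_nonpos_of_nonneg hc' (by positivity)
    linarith
  have ha0 : 0 < a := by
    have : (0 : ℝ) < a := by linarith
    exact_mod_cast this
  have hb1 : (1 : ℝ) ≤ b := by exact_mod_cast hb0
  have ha1 : (1 : ℝ) ≤ a := by exact_mod_cast ha0
  have hu2 : 2 ≤ u := by
    rw [hudef]
    nlinarith
  rw [hvu, mul_comm 2]
  exact mul_le_mul_of_nonneg_left hu2 hve.le

lemma v_inj {D : ℕ} (hD : 1 ≤ D) {M : ℤ} (hM : M ≠ 0) {e f : ℕ × ℕ} (he : e ∈ E D M) (hf : f ∈ E D M)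
    (h : v D e = v D f) : e = f := by
  have h1 := v_mul he
  have h2 := v_mul hf
  rw [← h, ← h1] at h2
  have h3 := mul_left_cancel₀ (v_pos hM he).ne' h2
  have h4 : (e.1 : ℝ) = f.1 := by
    unfold v at h
    linarith
  have hs := sqrtD hD
  have h5 : (e.2 : ℝ) = f.2 := by
    have : (e.2 : ℝ) * √(D : ℝ) = f.2 * √(D : ℝ) := by linarith
    exact mul_right_cancel₀ (by positivity) this
  exact Prod.ext (by exact_mod_cast h4) (by exact_mod_cast h5)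

/-- the code of a solution -/
noncomputable def code (D : ℕ) (M : ℤ) (hM : M ≠ 0) (e : ℕ × ℕ) : (Fin M.natAbs × Fin M.natAbs) × ℕ :=
  ((⟨e.1 % M.natAbs, Nat.mod_lt _ (Int.natAbs_pos.2 hM)⟩, ⟨e.2 % M.natAbs, Nat.mod_lt _ (Int.natAbs_pos.2 hM)⟩),
    Nat.log 2 ⌊v D e⌋₊)

lemma log_lt {D : ℕ} {e f : ℕ × ℕ} (h1 : 1 ≤ v D e) (h : 2 * v D e ≤ v D f) :
    Nat.log 2 ⌊v D e⌋₊ < Nat.log 2 ⌊v D f⌋₊ := by
  have k0 : 1 ≤ ⌊v D e⌋₊ := Nat.le_floor (by simpa using h1)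
  have k1 : 2 * ⌊v D e⌋₊ ≤ ⌊v D f⌋₊ := by
    apply Nat.le_floor
    push_cast
    have := Nat.floor_le (show 0 ≤ v D e by linarith)
    linarith
  have k2 : Nat.log 2 (⌊v D e⌋₊ * 2) = Nat.log 2 ⌊v D e⌋₊ + 1 := Nat.log_mul_base (by norm_num) (by omega)
  have k3 : Nat.log 2 (⌊v D e⌋₊ * 2) ≤ Nat.log 2 ⌊v D f⌋₊ := Nat.log_mono_right (by omega)
  omega

lemma code_inj {D : ℕ} (hD : 1 ≤ D) {M : ℤ} (hM : M ≠ 0) {e f : ℕ × ℕ} (he : e ∈ E D M) (hf : f ∈ E D M)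
    (h : code D M hM e = code D M hM f) : e = f := by
  unfold code at h
  simp only [Prod.mk.injEq, Fin.mk.injEq] at h
  obtain ⟨⟨h1, h2⟩, h3⟩ := h
  have g1 : (e.1 : ℤ) ≡ f.1 [ZMOD M] := by
    have : (e.1 : ℤ) ≡ f.1 [ZMOD (M.natAbs : ℤ)] := by exact_mod_cast (show e.1 ≡ f.1 [MOD M.natAbs] from h1)
    rcases Int.natAbs_eq M with h4 | h4
    · rw [h4]; simpa using this
    · rw [h4]
      exact (Int.modEq_neg).2 (by simpa using this)
  have g2 : (e.2 : ℤ) ≡ f.2 [ZMOD M] := by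
    have : (e.2 : ℤ) ≡ f.2 [ZMOD (M.natAbs : ℤ)] := by exact_mod_cast (show e.2 ≡ f.2 [MOD M.natAbs] from h2)
    rcases Int.natAbs_eq M with h4 | h4
    · rw [h4]; simpa using this
    · rw [h4]
      exact (Int.modEq_neg).2 (by simpa using this)
  rcases lt_trichotomy (v D e) (v D f) with h5 | h5 | h5
  · have := log_lt (v_ge_one hD hM he) (dbl hD hM he hf g1 g2 h5)
    omega
  · exact v_inj hD hM he hf h5
  · have := log_lt (v_ge_one hD hM hf) (dbl hD hM hf he g1.symm g2.symm h5)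
    omega

/-- summability over the solutions -/
lemma summable_E {D : ℕ} (hD : 1 ≤ D) {M : ℤ} (hM : M ≠ 0) :
    Summable fun e : {e : ℕ × ℕ // e ∈ E D M ∧ 16 ≤ v D e} => 1 / Real.log (v D e.1) ^ 2 := by
  set C : ℝ := 4 / Real.log 2 ^ 2 with hC
  have hl2 : 0 < Real.log 2 := Real.log_pos (by norm_num)
  set g : (Fin M.natAbs × Fin M.natAbs) × ℕ → ℝ := fun z => C * (1 / ((z.2 : ℝ) + 1) ^ 2) with hg
  have hgs : Summable g := by
    have h1 : Summable (fun _ : Fin M.natAbs × Fin M.natAbs => C) := (hasSum_fintype _).summable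
    have h2 : Summable (fun j : ℕ => 1 / ((j : ℝ) + 1) ^ 2) := by
      have := (Real.summable_one_div_nat_pow (p := 2)).2 (by norm_num)
      have h3 := (summable_nat_add_iff 1).2 this
      simpa using h3
    exact h1.mul_of_nonneg h2 (fun _ => by positivity) (fun _ => by positivity)
  have hinj : Function.Injective (fun e : {e : ℕ × ℕ // e ∈ E D M ∧ 16 ≤ v D e} => code D M hM e.1) := by
    intro e f h
    exact Subtype.ext (code_inj hD hM e.2.1 f.2.1 h)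
  refine Summable.of_nonneg_of_le (fun e => by positivity) ?_ (hgs.comp_injective hinj)
  rintro ⟨e, he, hv⟩
  simp only [Function.comp_apply, hg, code]
  set j := Nat.log 2 ⌊v D e⌋₊ with hj
  have hfl : 16 ≤ ⌊v D e⌋₊ := Nat.le_floor (by exact_mod_cast hv)
  have h1 : 2 ^ j ≤ ⌊v D e⌋₊ := Nat.pow_log_le_self 2 (by omega)
  have hj4 : 4 ≤ j := by
    have : Nat.log 2 16 ≤ j := Nat.log_mono_right hfl
    have h16 : Nat.log 2 16 = 4 := by
      rw [show 16 = 2 ^ 4 by norm_num, Nat.log_pow (by norm_num)]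
    omega
  have h2 : (2 : ℝ) ^ j ≤ v D e := by
    have h3 : ((2 ^ j : ℕ) : ℝ) ≤ (⌊v D e⌋₊ : ℝ) := by exact_mod_cast h1
    push_cast at h3
    exact h3.trans (Nat.floor_le (by linarith))
  have h3 : j * Real.log 2 ≤ Real.log (v D e) := by
    have := Real.log_le_log (by positivity) h2
    rwa [Real.log_pow] at this
  have hj' : (4 : ℝ) ≤ j := by exact_mod_cast hj4
  have h4 : ((j : ℝ) + 1) * Real.log 2 / 2 ≤ Real.log (v D e) := by nlinarith
  have h5 : (((j : ℝ) + 1) * Real.log 2 / 2) ^ 2 ≤ Real.log (v D e) ^ 2 := pow_le_pow_left₀ (by positivity) h4 2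
  calc 1 / Real.log (v D e) ^ 2 ≤ 1 / (((j : ℝ) + 1) * Real.log 2 / 2) ^ 2 :=
        one_div_le_one_div_of_le (by positivity) h5
    _ = C * (1 / ((j : ℝ) + 1) ^ 2) := by
        rw [hC]
        field_simp
        norm_num

/-- large solutions -/
lemma big {D : ℕ} (hD : 1 ≤ D) {M : ℤ} (hM : M ≠ 0) {N : ℕ} {e : ℕ × ℕ} (he : e ∈ E D M)
    (hv : 16 * (D : ℝ) + 2 * |(M : ℝ)| + 16 + ((N : ℝ) + 1) ^ 2 ≤ v D e) :
    √(v D e) ≤ e.1 ∧ √(v D e) ≤ e.2 ∧ N + 1 ≤ e.1 ∧ N + 1 ≤ e.2 ∧ e.1 ≠ e.2 := by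
  set w := v D e with hw
  have hM0 := abs_nonneg (M : ℝ)
  have hD' : (1 : ℝ) ≤ D := by exact_mod_cast hD
  have hw16 : 16 ≤ w := by nlinarith [sq_nonneg ((N : ℝ) + 1)]
  have hw0 : 0 < w := by linarith
  have h1 := v_mul he
  rw [← hw] at h1
  set z := (e.1 : ℝ) - e.2 * √(D : ℝ) with hz
  have h2 : |z| ≤ 1 / 2 := by
    have h3 : w * |z| = |(M : ℝ)| := by rw [← h1, abs_mul, abs_of_pos hw0]
    have h4 : |(M : ℝ)| ≤ w / 2 := by nlinarith [sq_nonneg ((N : ℝ) + 1)]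
    rw [← h3] at h4
    by_contra hc
    push Not at hc
    nlinarith
  have hs := sqrtD hD
  have hss : √(D : ℝ) * √(D : ℝ) = D := Real.mul_self_sqrt (Nat.cast_nonneg _)
  have hx : w / 4 ≤ e.1 := by
    have : w = e.1 + e.2 * √(D : ℝ) := rfl
    have := abs_le.1 h2
    linarith [this.1]
  have hy : w / 4 ≤ e.2 * √(D : ℝ) := by
    have : w = e.1 + e.2 * √(D : ℝ) := rfl
    have := abs_le.1 h2
    linarith [this.2]
  set q := √w with hq
  have hqq : q * q = w := Real.mul_self_sqrt hw0.le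
  have hq4 : 4 ≤ q := by
    rw [hq]
    apply Real.le_sqrt_of_sq_le
    linarith
  have hqD : 4 * √(D : ℝ) ≤ q := by
    rw [hq]
    apply Real.le_sqrt_of_sq_le
    have : (4 * √(D : ℝ)) ^ 2 = 16 * D := by rw [mul_pow, sq (√(D : ℝ)), hss]; norm_num
    rw [this]
    nlinarith [sq_nonneg ((N : ℝ) + 1)]
  have hqN : (N : ℝ) + 1 ≤ q := by
    rw [hq]
    apply Real.le_sqrt_of_sq_le
    linarith
  have a1 : q ≤ e.1 := by nlinarith
  have a2 : q ≤ e.2 := by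
    have h3 : q * √(D : ℝ) ≤ e.2 * √(D : ℝ) := by nlinarith
    exact le_of_mul_le_mul_right h3 (by linarith)
  refine ⟨a1, a2, ?_, ?_, ?_⟩
  · have : ((N + 1 : ℕ) : ℝ) ≤ e.1 := by push_cast; linarith
    exact_mod_cast this
  · have : ((N + 1 : ℕ) : ℝ) ≤ e.2 := by push_cast; linarith
    exact_mod_cast this
  · intro hxy
    have h3 : (e.1 : ℤ) ^ 2 - D * (e.2 : ℤ) ^ 2 = M := he
    rw [← hxy] at h3
    have h4 : (e.1 : ℝ) ^ 2 * (1 - D) = M := by
      have : ((e.1 : ℝ)) ^ 2 - D * (e.1 : ℝ) ^ 2 = M := by exact_mod_cast h3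
      linarith
    have h5 : w ≤ (e.1 : ℝ) ^ 2 := by nlinarith
    have h6 : |(M : ℝ)| = (e.1 : ℝ) ^ 2 * (D - 1) := by
      rw [← h4, abs_mul, abs_of_nonneg (by positivity), abs_of_nonpos (by linarith)]
      ring
    have hD2 : (2 : ℝ) ≤ D := by
      rcases Nat.lt_or_ge 1 D with h | h
      · exact_mod_cast h
      · have : D = 1 := by omega
        rw [this] at h4
        simp at h4
        exact absurd (by exact_mod_cast h4.symm) hM
    have h7 : |(M : ℝ)| < w := by nlinarith [sq_nonneg ((N : ℝ) + 1)]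
    nlinarith

lemma small_finite (D : ℕ) (hD : 1 ≤ D) (B : ℝ) : {e : ℕ × ℕ | v D e < B}.Finite := by
  have hs := sqrtD hD
  refine ((Set.finite_Iic ⌈B⌉₊).prod (Set.finite_Iic ⌈B⌉₊)).subset ?_
  intro e he
  have he' : v D e < B := he
  unfold v at he'
  have h1 : (0 : ℝ) ≤ e.1 := Nat.cast_nonneg _
  have h2 : (0 : ℝ) ≤ e.2 := Nat.cast_nonneg _
  have h3 := Nat.le_ceil B
  have h4 : (e.1 : ℝ) ≤ ⌈B⌉₊ := by nlinarith
  have h5 : (e.2 : ℝ) ≤ ⌈B⌉₊ := by nlinarith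
  exact ⟨by exact_mod_cast h4, by exact_mod_cast h5⟩

variable {Ω : Type} {m0 : MeasurableSpace Ω} {μ : Measure Ω} [IsProbabilityMeasure μ]
  {ℱ : Filtration ℕ m0} {A : ℕ → Set Ω}

/-- for one equation -/
theorem finite_one (hA : ∀ n, MeasurableSet[ℱ n] (A n)) (Q : ℕ)
    (hd : ∀ᵐ ω ∂μ, ∀ ε : ℝ, 0 < ε → ∀ᶠ n : ℕ in atTop,
      |dens μ ℱ A n ω - rhoW Q (n + 1)| ≤ ε * rhoW Q (n + 1))
    (D : ℕ) (hD : 1 ≤ D) (M : ℤ) (hM : M ≠ 0) :
    ∀ᵐ ω ∂μ, {e : ℕ × ℕ | e ∈ E D M ∧ ω ∈ A e.1 ∧ ω ∈ A e.2}.Finite := by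
  classical
  set c : ℝ := (Q : ℝ) / Nat.totient Q with hc
  have hc0 : 0 ≤ c := by positivity
  set B : ℕ → ℝ := fun N => 16 * (D : ℝ) + 2 * |(M : ℝ)| + 16 + ((N : ℝ) + 1) ^ 2 with hB
  have hB16 : ∀ N, 16 ≤ B N := by
    intro N
    simp only [hB]
    have h1 := abs_nonneg (M : ℝ)
    have h2 : (0 : ℝ) ≤ 16 * (D : ℝ) := by positivity
    have h3 : (0 : ℝ) ≤ ((N : ℝ) + 1) ^ 2 := by positivity
    linarith
  have hmain : ∀ N : ℕ, ∀ᵐ ω ∂μ, {e : {e : ℕ × ℕ // e ∈ E D M ∧ B N ≤ v D e} |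
      ω ∈ NW (VR μ ℱ A (rhoW Q)) N (max e.1.1 e.1.2) ∩ {ω | ω ∈ A e.1.1 ∧ ω ∈ A e.1.2}}.Finite := by
    intro N
    apply ae_finite_setOfPred_mem
    have hinj : Function.Injective (fun e : {e : ℕ × ℕ // e ∈ E D M ∧ B N ≤ v D e} =>
        (⟨e.1, e.2.1, (hB16 N).trans e.2.2⟩ : {e : ℕ × ℕ // e ∈ E D M ∧ 16 ≤ v D e})) := by
      intro e f h
      exact Subtype.ext (congrArg (fun z : {e : ℕ × ℕ // e ∈ E D M ∧ 16 ≤ v D e} => z.1) h)
    have hsum := ((summable_E hD hM).comp_injective hinj).mul_left (16 * c ^ 2)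
    have hle : ∀ e : {e : ℕ × ℕ // e ∈ E D M ∧ B N ≤ v D e},
        μ (NW (VR μ ℱ A (rhoW Q)) N (max e.1.1 e.1.2) ∩ {ω | ω ∈ A e.1.1 ∧ ω ∈ A e.1.2}) ≤
          ENNReal.ofReal (16 * c ^ 2 * (1 / Real.log (v D e.1) ^ 2)) := by
      rintro ⟨e, he, hv⟩
      obtain ⟨b1, b2, b3, b4, b5⟩ := big hD hM he hv
      have h1 := YY_exp' (μ := μ) hA (rhoW Q) (rhoW_nonneg Q) (fun (b : Bool) (_ : ℕ) => if b then e.1 else e.2)
        Finset.univ 0 N (max e.1 e.2) (by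
          intro i _ j _ hij
          cases i <;> cases j <;> simp at hij ⊢
          · exact b5 hij.symm
          · exact b5 hij) (by
          intro i _
          cases i <;> simp [b3, b4]) (by
          intro i _
          cases i <;> simp <;> omega)
      have h2 : {ω | ∀ i ∈ (Finset.univ : Finset Bool), ω ∈ A (if i then e.1 else e.2)} = {ω | ω ∈ A e.1 ∧ ω ∈ A e.2} := by
        ext ω
        simp [and_comm]
      rw [h2, Fintype.prod_bool] at h1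
      simp only [if_true, Bool.false_eq_true, if_false] at h1
      have hw16 := (hB16 N).trans hv
      have hlv : 0 < Real.log (v D e) := Real.log_pos (by linarith)
      have hlog : ∀ n : ℕ, √(v D e) ≤ n → rhoW Q n ≤ 2 * c / Real.log (v D e) := by
        intro n hn
        have h3 : Real.log (v D e) / 2 ≤ Real.log n := by
          have h4 := Real.log_le_log (Real.sqrt_pos.2 (by linarith)) hn
          rwa [Real.log_sqrt (by linarith)] at h4
        unfold rhoW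
        split_ifs
        · refine (min_le_right _ _).trans ?_
          rw [← hc]
          calc c / Real.log n ≤ c / (Real.log (v D e) / 2) := div_le_div_of_nonneg_left hc0 (by positivity) h3
            _ = 2 * c / Real.log (v D e) := by field_simp
        · positivity
      have h3 := hlog _ b1
      have h4 := hlog _ b2
      rw [← ofReal_measureReal (measure_ne_top _ _)]
      apply ENNReal.ofReal_le_ofReal
      refine h1.trans ?_
      calc 2 * rhoW Q e.1 * (2 * rhoW Q e.2) ≤ 2 * (2 * c / Real.log (v D e)) * (2 * (2 * c / Real.log (v D e))) := by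
            have := rhoW_nonneg Q e.1
            have := rhoW_nonneg Q e.2
            gcongr
        _ = 16 * c ^ 2 * (1 / Real.log (v D e) ^ 2) := by
            field_simp
            ring
    refine ne_top_of_le_ne_top ?_ (ENNReal.tsum_le_tsum hle)
    exact hsum.tsum_ofReal_ne_top
  filter_upwards [ae_all_iff.2 hmain, hd] with ω h1 h2
  obtain ⟨N, hN⟩ := eventually_atTop.1 (h2 1 one_pos)
  have h3 : ∀ e, ω ∈ NW (VR μ ℱ A (rhoW Q)) N e := by
    intro e m hm _ hmem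
    have h4 := (abs_le.1 (hN m hm)).2
    have h5 : 2 * rhoW Q (m + 1) < dens μ ℱ A m ω := hmem
    linarith
  have h4 : {e : ℕ × ℕ | e ∈ E D M ∧ ω ∈ A e.1 ∧ ω ∈ A e.2} ⊆ {e : ℕ × ℕ | v D e < B N} ∪
      (fun e : {e : ℕ × ℕ // e ∈ E D M ∧ B N ≤ v D e} => e.1) '' {e : {e : ℕ × ℕ // e ∈ E D M ∧ B N ≤ v D e} |
      ω ∈ NW (VR μ ℱ A (rhoW Q)) N (max e.1.1 e.1.2) ∩ {ω | ω ∈ A e.1.1 ∧ ω ∈ A e.1.2}} := by
    rintro e ⟨he, hx, hy⟩
    rcases lt_or_ge (v D e) (B N) with h | h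
    · exact Or.inl h
    · exact Or.inr ⟨⟨e, he, h⟩, ⟨h3 _, hx, hy⟩, rfl⟩
  exact ((small_finite D hD _).union ((h1 N).image _)).subset h4

/-- for all equations at once -/
theorem finite_all (hA : ∀ n, MeasurableSet[ℱ n] (A n)) (Q : ℕ)
    (hd : ∀ᵐ ω ∂μ, ∀ ε : ℝ, 0 < ε → ∀ᶠ n : ℕ in atTop,
      |dens μ ℱ A n ω - rhoW Q (n + 1)| ≤ ε * rhoW Q (n + 1)) :
    ∀ᵐ ω ∂μ, ∀ (D : ℕ) (M : ℤ), 1 ≤ D → M ≠ 0 → {e : ℕ × ℕ | e ∈ E D M ∧ ω ∈ A e.1 ∧ ω ∈ A e.2}.Finite := by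
  rw [ae_all_iff]
  intro D
  rw [ae_all_iff]
  intro M
  by_cases hD : 1 ≤ D
  · by_cases hM : M ≠ 0
    · filter_upwards [finite_one (μ := μ) hA Q hd D hD M hM] with ω hω _ _
      exact hω
    · exact Eventually.of_forall fun ω _ h => absurd h hM
  · exact Eventually.of_forall fun ω h => absurd h hD

end Pool.Agent.N233.PE
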